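import Pool.Agent.LibComplexity.Space

/-!
Every language in `PSPACE` is reduced in polynomial time to plan reachability for rules that
prescribe, for some of the bits of a state, the value before and the value after the step.
-/

namespace Pool.Agent.LibPlan90

open Function Pool.Agent.LibComplexity Enc

/-- what a rule says about one bit: `none` = untouched, `some (p, q)` = must be p, becomes q -/
abbrev Ent := Option (Bool × Bool)

/-- a bit may change from `a` to `b` -/
def EntOK : Ent → Bool → Bool → Prop
  | none, a, b => b = a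
  | some (p, q), a, b => a = p ∧ b = q

/-- one step: some rule fires (all lists have the same length) -/
def PStep (rules : List (List Ent)) (s s' : List Bool) : Prop :=
  ∃ r ∈ rules, s.length = r.length ∧ s'.length = r.length ∧
    ∀ i, i < r.length → EntOK (r.getD i none) (s.getD i false) (s'.getD i false)

theorem EntOK.functional {t : Ent} {a b b' : Bool} (h : EntOK t a b) (h' : EntOK t a b') :
    b = b' := by
  cases t with
  | none =>
    simp only [EntOK] at h h'
    rw [h, h']
  | some pq =>
    simp only [EntOK] at h h'
    rw [h.2, h'.2]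

/-! ### Rules given by the lists of the bits that must be `true` before and after -/

section General

variable {ι : Type}

open Classical in
/-- the entry at the bit `b` of the rule `(del, add)` -/
noncomputable def ent (r : List ι × List ι) (b : ι) : Ent :=
  if b ∈ r.1 then (if b ∈ r.2 then some (true, true) else some (true, false))
  else (if b ∈ r.2 then some (false, true) else none)

theorem entOK_iff {r : List ι × List ι} {b : ι} {S S' : Bool} :
    EntOK (ent r b) S S' ↔ (b ∈ r.1 → S = true) ∧ (b ∈ r.2 → S' = true) ∧
      (b ∉ r.1 → b ∈ r.2 → S = false) ∧ (b ∈ r.1 → b ∉ r.2 → S' = false) ∧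
      (b ∉ r.1 → b ∉ r.2 → S' = S) := by
  unfold ent
  by_cases h1 : b ∈ r.1 <;> by_cases h2 : b ∈ r.2 <;> simp [h1, h2, EntOK, and_comm]

/-- the state with the bits `L` -/
def svec (L : List ι) (S : ι → Bool) : List Bool := L.map S

/-- the rule with the bits `L` -/
noncomputable def rvec (L : List ι) (r : List ι × List ι) : List Ent := L.map (ent r)

theorem pstep_intro {L : List ι} {R : List (List ι × List ι)} {S S' : ι → Bool}
    {r : List ι × List ι} (hr : r ∈ R) (h : ∀ b ∈ L, EntOK (ent r b) (S b) (S' b)) :
    PStep (R.map (rvec L)) (svec L S) (svec L S') := by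
  refine ⟨rvec L r, List.mem_map_of_mem hr, by simp [svec, rvec], by simp [svec, rvec], ?_⟩
  intro i hi
  have hi' : i < L.length := by simpa [rvec] using hi
  have := h L[i] (List.getElem_mem hi')
  simpa [rvec, svec, List.getD_eq_getElem?_getD, hi'] using this

theorem pstep_elim {L : List ι} {R : List (List ι × List ι)} {S : ι → Bool} {s' : List Bool}
    (h : PStep (R.map (rvec L)) (svec L S) s') :
    ∃ r ∈ R, (∀ b ∈ L, b ∈ r.1 → S b = true) ∧
      ∀ S' : ι → Bool, (∀ b ∈ L, EntOK (ent r b) (S b) (S' b)) → s' = svec L S' := by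
  obtain ⟨v, hv, h1, h2, h3⟩ := h
  obtain ⟨r, hr, rfl⟩ := List.mem_map.1 hv
  have hlen : (rvec L r).length = L.length := by simp [rvec]
  rw [hlen] at h2 h3
  have key : ∀ (i : ℕ) (hi : i < L.length), EntOK (ent r L[i]) (S L[i]) (s'.getD i false) := by
    intro i hi
    have := h3 i hi
    simpa [rvec, svec, List.getD_eq_getElem?_getD, hi] using this
  refine ⟨r, hr, ?_, ?_⟩
  · intro b hb hbr
    obtain ⟨i, hi, rfl⟩ := List.getElem_of_mem hb
    exact (entOK_iff.1 (key i hi)).1 hbr
  · intro S' hS'
    apply List.ext_getElem
    · rw [h2]; simp [svec]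
    · intro i hi hi'
      have hi2 : i < L.length := by rw [← h2]; exact hi
      have k1 := key i hi2
      have k2 := hS' L[i] (List.getElem_mem hi2)
      have k3 := k1.functional k2
      rw [List.getD_eq_getElem?_getD, List.getElem?_eq_getElem hi] at k3
      simpa [svec] using k3

end General

/-! ### The bits that describe the configurations of a machine -/

variable {M : TM}

/-- bits: the control state (`none` is an additional state in which the tapes are erased), the
head positions, and the tape contents -/
inductive Atom (M : TM) : Type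
  | label (p : Option M.Q)
  | head (i : Fin (M.K + 2)) (n : ℕ)
  | cell (i : Fin (M.K + 2)) (n : ℕ) (s : Sym)

open Classical in
/-- the bits of a configuration; the number `n` stands for the position `n - (P + 1)` -/
noncomputable def chi (P : ℕ) (c : Cfg M) : Atom M → Bool
  | .label p => decide (p = some c.q)
  | .head i n => decide (c.head i = (n : ℤ) - (P + 1))
  | .cell i n s => decide (c.tape i ((n : ℤ) - (P + 1)) = s)

/-- the new position -/
def shift : Dir → ℕ → ℕ
  | .left, n => n - 1
  | .stay, n => n
  | .right, n => n + 1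

/-- the rule for a transition -/
def mkRule (q : M.Q) (a : Fin (M.K + 2) → Sym) (g : M.Q × (Fin (M.K + 2) → Sym × Dir))
    (zs : List ℕ) : List (Atom M) × List (Atom M) :=
  (.label (some q) :: ((List.ofFn fun i => Atom.head i (zs.getD i 0)) ++
      List.ofFn fun i => Atom.cell i (zs.getD i 0) (a i)),
   .label (some g.1) :: ((List.ofFn fun i => Atom.head i (shift (g.2 i).2 (zs.getD i 0))) ++
      List.ofFn fun i => Atom.cell i (zs.getD i 0) (g.2 i).1))

theorem label_mem_fst {q : M.Q} {a : Fin (M.K + 2) → Sym}
    {g : M.Q × (Fin (M.K + 2) → Sym × Dir)} {zs : List ℕ} {p : Option M.Q} :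
    Atom.label p ∈ (mkRule q a g zs).1 ↔ p = some q := by
  simp [mkRule, List.mem_ofFn]

theorem label_mem_snd {q : M.Q} {a : Fin (M.K + 2) → Sym}
    {g : M.Q × (Fin (M.K + 2) → Sym × Dir)} {zs : List ℕ} {p : Option M.Q} :
    Atom.label p ∈ (mkRule q a g zs).2 ↔ p = some g.1 := by
  simp [mkRule, List.mem_ofFn]

theorem head_mem_fst {q : M.Q} {a : Fin (M.K + 2) → Sym}
    {g : M.Q × (Fin (M.K + 2) → Sym × Dir)} {zs : List ℕ} {i : Fin (M.K + 2)} {n : ℕ} :
    Atom.head i n ∈ (mkRule q a g zs).1 ↔ n = zs.getD i 0 := by
  simp only [mkRule, List.mem_cons, reduceCtorEq, List.mem_append, List.mem_ofFn, false_or,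
    exists_false, or_false, Atom.head.injEq]
  constructor
  · rintro ⟨j, rfl, rfl⟩
    rfl
  · rintro rfl
    exact ⟨i, rfl, rfl⟩

theorem head_mem_snd {q : M.Q} {a : Fin (M.K + 2) → Sym}
    {g : M.Q × (Fin (M.K + 2) → Sym × Dir)} {zs : List ℕ} {i : Fin (M.K + 2)} {n : ℕ} :
    Atom.head i n ∈ (mkRule q a g zs).2 ↔ n = shift (g.2 i).2 (zs.getD i 0) := by
  simp only [mkRule, List.mem_cons, reduceCtorEq, List.mem_append, List.mem_ofFn, false_or,
    exists_false, or_false, Atom.head.injEq]
  constructor
  · rintro ⟨j, rfl, rfl⟩
    rfl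
  · rintro rfl
    exact ⟨i, rfl, rfl⟩

theorem cell_mem_fst {q : M.Q} {a : Fin (M.K + 2) → Sym}
    {g : M.Q × (Fin (M.K + 2) → Sym × Dir)} {zs : List ℕ} {i : Fin (M.K + 2)} {n : ℕ} {s : Sym} :
    Atom.cell i n s ∈ (mkRule q a g zs).1 ↔ n = zs.getD i 0 ∧ s = a i := by
  simp only [mkRule, List.mem_cons, reduceCtorEq, List.mem_append, List.mem_ofFn, false_or,
    exists_false, Atom.cell.injEq]
  constructor
  · rintro ⟨j, rfl, rfl, rfl⟩
    exact ⟨rfl, rfl⟩
  · rintro ⟨rfl, rfl⟩
    exact ⟨i, rfl, rfl, rfl⟩

theorem cell_mem_snd {q : M.Q} {a : Fin (M.K + 2) → Sym}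
    {g : M.Q × (Fin (M.K + 2) → Sym × Dir)} {zs : List ℕ} {i : Fin (M.K + 2)} {n : ℕ} {s : Sym} :
    Atom.cell i n s ∈ (mkRule q a g zs).2 ↔ n = zs.getD i 0 ∧ s = (g.2 i).1 := by
  simp only [mkRule, List.mem_cons, reduceCtorEq, List.mem_append, List.mem_ofFn, false_or,
    exists_false, Atom.cell.injEq]
  constructor
  · rintro ⟨j, rfl, rfl, rfl⟩
    exact ⟨rfl, rfl⟩
  · rintro ⟨rfl, rfl⟩
    exact ⟨i, rfl, rfl, rfl⟩

/-- the rule of a transition changes the bits of a configuration into the bits of the next one -/
theorem mkRule_ok {P : ℕ} {c : Cfg M} {f : (Fin (M.K + 2) → Sym) → M.Q × (Fin (M.K + 2) → Sym × Dir)}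
    {zs : List ℕ} (hP : ∀ i, |c.head i| ≤ (P : ℤ))
    (hz : ∀ i : Fin (M.K + 2), ((zs.getD i 0 : ℕ) : ℤ) = c.head i + P + 1) (b : Atom M) :
    EntOK (ent (mkRule c.q (fun i => c.tape i (c.head i)) (f fun i => c.tape i (c.head i)) zs) b)
      (chi P c b) (chi P ⟨(f fun i => c.tape i (c.head i)).1,
        fun i => Function.update (c.tape i) (c.head i) ((f fun i => c.tape i (c.head i)).2 i).1,
        fun i => c.head i + ((f fun i => c.tape i (c.head i)).2 i).2.disp, c.ch⟩ b) := by
  set a : Fin (M.K + 2) → Sym := fun i => c.tape i (c.head i) with ha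
  set g := f a with hg
  rw [entOK_iff]
  cases b with
  | label p =>
    rw [label_mem_fst, label_mem_snd]
    simp only [chi, decide_eq_true_eq, decide_eq_false_iff_not]
    refine ⟨fun h => h, fun h => h, fun h _ => h, fun _ h => h, fun h1 h2 => ?_⟩
    simp [h1, h2]
  | head i n =>
    rw [head_mem_fst, head_mem_snd]
    simp only [chi, decide_eq_true_eq, decide_eq_false_iff_not]
    have hzi := hz i
    have hPi := abs_le.1 (hP i)
    have h1 : (n = zs.getD i 0) ↔ (c.head i = (n : ℤ) - (P + 1)) := by omega
    have h2 : (n = shift (g.2 i).2 (zs.getD i 0)) ↔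
        (c.head i + (g.2 i).2.disp = (n : ℤ) - (P + 1)) := by
      cases (g.2 i).2 <;> simp only [shift, Dir.disp] <;> omega
    rw [h1, h2]
    refine ⟨fun h => h, fun h => h, fun h _ => h, fun _ h => h, fun h1 h2 => ?_⟩
    simp [h1, h2]
  | cell i n s =>
    rw [cell_mem_fst, cell_mem_snd]
    simp only [chi, decide_eq_true_eq, decide_eq_false_iff_not]
    have hzi := hz i
    have hPi := abs_le.1 (hP i)
    have h1 : (n = zs.getD i 0) ↔ (c.head i = (n : ℤ) - (P + 1)) := by omega
    rw [h1]
    by_cases h : c.head i = (n : ℤ) - (P + 1)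
    · rw [← h]
      simp only [Function.update_self, true_and]
      have ha' : c.tape i (c.head i) = a i := rfl
      rw [ha']
      refine ⟨fun h => h.symm, fun h => h.symm, fun h _ h' => h h'.symm,
        fun _ h h' => h h'.symm, fun h1 h2 => ?_⟩
      have h3 : ¬ (a i = s) := fun h => h1 h.symm
      have h4 : ¬ ((g.2 i).1 = s) := fun h => h2 h.symm
      simp [h3, h4]
    · simp only [h, false_and, false_imp_iff, not_false_eq_true, true_imp_iff, true_and,
        imp_true_iff]
      have h3 : Function.update (c.tape i) (c.head i) (g.2 i).1 ((n : ℤ) - (P + 1)) =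
          c.tape i ((n : ℤ) - (P + 1)) := Function.update_of_ne (fun h' => h h'.symm) _ _
      simp only [h3]

/-! ### The planning instance -/

/-- the lists of length `k` of numbers less than `N` -/
def tup : ℕ → ℕ → List (List ℕ)
  | 0, _ => [[]]
  | k + 1, N => (List.range N).flatMap fun z => (tup k N).map fun l => z :: l

theorem mem_tup {k N : ℕ} {l : List ℕ} : l ∈ tup k N ↔ l.length = k ∧ ∀ z ∈ l, z < N := by
  induction k generalizing l with
  | zero =>
    simp only [tup, List.mem_singleton]
    constructor
    · rintro rfl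
      simp
    · rintro ⟨h, -⟩
      exact List.length_eq_zero_iff.1 h
  | succ k ih =>
    simp only [tup, List.mem_flatMap, List.mem_range, List.mem_map]
    constructor
    · rintro ⟨z, hz, l', hl', rfl⟩
      obtain ⟨h1, h2⟩ := ih.1 hl'
      refine ⟨by simp [h1], ?_⟩
      intro y hy
      rcases List.mem_cons.1 hy with rfl | hy
      · exact hz
      · exact h2 y hy
    · rintro ⟨h1, h2⟩
      cases l with
      | nil => simp at h1
      | cons z l =>
        exact ⟨z, h2 z List.mem_cons_self, l,
          ih.2 ⟨by simpa using h1, fun y hy => h2 y (List.mem_cons_of_mem _ hy)⟩, rfl⟩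

/-- all elements of a finite type -/
noncomputable def allOf (α : Type) [Finite α] : List α :=
  haveI := Fintype.ofFinite α
  (Finset.univ : Finset α).toList

theorem mem_allOf {α : Type} [Finite α] (x : α) : x ∈ allOf α := by
  unfold allOf
  exact Finset.mem_toList.2 (@Finset.mem_univ _ (Fintype.ofFinite α) x)

instance finQ (M : TM) : Finite M.Q := M.fin

/-- the bits of the control state -/
noncomputable def labels (M : TM) : List (Atom M) :=
  .label none :: (allOf M.Q).map fun q => .label (some q)

/-- the bits of the head positions -/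
noncomputable def heads (M : TM) (N : ℕ) : List (Atom M) :=
  (List.finRange (M.K + 2)).flatMap fun i => (List.range N).map fun n => .head i n

/-- the bits of the tapes -/
noncomputable def cells (M : TM) (N : ℕ) : List (Atom M) :=
  (List.finRange (M.K + 2)).flatMap fun i =>
    ([none, some false, some true] : List Sym).flatMap fun s =>
      (List.range N).map fun n => .cell i n s

/-- all bits -/
noncomputable def atoms (M : TM) (N : ℕ) : List (Atom M) := labels M ++ (heads M N ++ cells M N)

theorem label_mem {N : ℕ} (p : Option M.Q) : Atom.label p ∈ atoms M N := by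
  unfold atoms labels
  cases p with
  | none => simp
  | some q => simp [mem_allOf q]

theorem head_mem {N : ℕ} {i : Fin (M.K + 2)} {n : ℕ} (h : n < N) : Atom.head i n ∈ atoms M N := by
  unfold atoms heads
  simp [h]

theorem cell_mem {N : ℕ} {i : Fin (M.K + 2)} {n : ℕ} {s : Sym} (h : n < N) :
    Atom.cell i n s ∈ atoms M N := by
  unfold atoms cells
  rcases s with _ | _ | _ <;> simp [h]

/-- the rules for a control state -/
noncomputable def rulesOf (M : TM) (N : ℕ) (q : M.Q) : List (List (Atom M) × List (Atom M)) :=
  match M.act q with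
  | .move f => (allOf (Fin (M.K + 2) → Sym)).flatMap fun a => (tup (M.K + 2) N).map
      (mkRule q a (f a))
  | .ask _ no => [([.label (some q)], [.label (some no)])]
  | .choose _ _ => []
  | .halt true => [([.label (some q)], [.label none])]
  | .halt false => []

/-- the rules that erase a bit -/
noncomputable def cleaners (M : TM) (N : ℕ) : List (List (Atom M) × List (Atom M)) :=
  (atoms M N).map fun b => ([.label none, b], [.label none])

/-- all rules -/
noncomputable def rules (M : TM) (N : ℕ) : List (List (Atom M) × List (Atom M)) :=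
  (allOf M.Q).flatMap (rulesOf M N) ++ cleaners M N

/-- the system makes the steps of the machine -/
theorem pstep_of_step {P : ℕ} {c c' : Cfg M} (hdet : M.Det) (hP : ∀ i, |c.head i| ≤ (P : ℤ))
    (hs : M.step ∅ c = some c') :
    PStep ((rules M (2 * P + 3)).map (rvec (atoms M (2 * P + 3))))
      (svec (atoms M (2 * P + 3)) (chi P c)) (svec (atoms M (2 * P + 3)) (chi P c')) := by
  have hr : ∀ r, r ∈ rulesOf M (2 * P + 3) c.q → r ∈ rules M (2 * P + 3) := by
    intro r hr
    unfold rules
    rw [List.mem_append, List.mem_flatMap]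
    exact Or.inl ⟨c.q, mem_allOf _, hr⟩
  unfold TM.step at hs
  cases hact : M.act c.q with
  | move f =>
    rw [hact] at hs
    simp only [Option.some.injEq] at hs
    subst hs
    let zs : List ℕ := List.ofFn fun i : Fin (M.K + 2) => (c.head i + P + 1).toNat
    have hz : ∀ i : Fin (M.K + 2), ((zs.getD i 0 : ℕ) : ℤ) = c.head i + P + 1 := by
      intro i
      have hPi := abs_le.1 (hP i)
      simp only [zs, List.getD_eq_getElem?_getD, List.getElem?_ofFn]
      simp only [Fin.is_lt, dite_true, Option.getD_some, Fin.eta]
      omega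
    refine pstep_intro (r := mkRule c.q (fun i => c.tape i (c.head i))
      (f fun i => c.tape i (c.head i)) zs) (hr _ ?_) (fun b _ => mkRule_ok hP hz b)
    unfold rulesOf
    rw [hact]
    rw [List.mem_flatMap]
    refine ⟨_, mem_allOf _, List.mem_map_of_mem ?_⟩
    rw [mem_tup]
    refine ⟨by simp [zs], ?_⟩
    intro z hz'
    obtain ⟨i, rfl⟩ := (List.mem_ofFn' _ _).1 hz'
    have hPi := abs_le.1 (hP i)
    simp only
    omega
  | ask yes no =>
    rw [hact] at hs
    simp only [Set.mem_empty_iff_false, false_and, exists_false, if_false,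
      Option.some.injEq] at hs
    subst hs
    refine pstep_intro (r := ([.label (some c.q)], [.label (some no)])) (hr _ ?_) (fun b _ => ?_)
    · unfold rulesOf
      rw [hact]
      simp
    · rw [entOK_iff]
      cases b with
      | label p =>
        simp only [List.mem_singleton, Atom.label.injEq, chi, decide_eq_true_eq,
          decide_eq_false_iff_not]
        refine ⟨fun h => h, fun h => h, fun h _ => h, fun _ h => h, fun h1 h2 => ?_⟩
        simp [h1, h2]
      | head i n => simp [chi]
      | cell i n s => simp [chi]
  | choose q₀ q₁ => exact absurd hact (hdet _ _ _)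
  | halt b =>
    rw [hact] at hs
    cases hs

/-- the system makes only the steps of the machine, as long as the machine does not accept -/
theorem step_of_pstep {P : ℕ} {c : Cfg M} {s' : List Bool} (hP : ∀ i, |c.head i| ≤ (P : ℤ))
    (hs : PStep ((rules M (2 * P + 3)).map (rvec (atoms M (2 * P + 3))))
      (svec (atoms M (2 * P + 3)) (chi P c)) s') :
    M.act c.q = .halt true ∨ ∃ c', M.step ∅ c = some c' ∧
      s' = svec (atoms M (2 * P + 3)) (chi P c') := by
  obtain ⟨r, hr, h1, h2⟩ := pstep_elim hs
  unfold rules at hr
  rw [List.mem_append, List.mem_flatMap] at hr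
  rcases hr with ⟨q, -, hr⟩ | hr
  · have hq : Atom.label (some q) ∈ r.1 → q = c.q := by
      intro h
      have := h1 _ (label_mem _) h
      simpa [chi] using this
    unfold rulesOf at hr
    cases hact : M.act q with
    | move f =>
      rw [hact] at hr
      simp only [List.mem_flatMap, List.mem_map] at hr
      obtain ⟨a, -, zs, hzs, rfl⟩ := hr
      obtain rfl := hq (label_mem_fst.2 rfl)
      rw [mem_tup] at hzs
      obtain ⟨hlen, hlt⟩ := hzs
      have hlt' : ∀ i : Fin (M.K + 2), zs.getD i 0 < 2 * P + 3 := by
        intro i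
        have hi : (i : ℕ) < zs.length := by rw [hlen]; exact i.2
        rw [List.getD_eq_getElem?_getD, List.getElem?_eq_getElem hi]
        exact hlt _ (List.getElem_mem hi)
      have hh : ∀ i : Fin (M.K + 2), c.head i = ((zs.getD i 0 : ℕ) : ℤ) - (P + 1) := by
        intro i
        have := h1 _ (head_mem (hlt' i)) (head_mem_fst.2 rfl)
        simpa [chi] using this
      have hz : ∀ i : Fin (M.K + 2), ((zs.getD i 0 : ℕ) : ℤ) = c.head i + P + 1 := by
        intro i
        have := hh i
        omega
      have ha : a = fun i => c.tape i (c.head i) := by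
        funext i
        have := h1 _ (cell_mem (hlt' i)) (cell_mem_fst.2 ⟨rfl, rfl⟩)
        simp only [chi, decide_eq_true_eq] at this
        rw [hh i]
        exact this.symm
      subst ha
      right
      refine ⟨⟨(f fun i => c.tape i (c.head i)).1,
        fun i => Function.update (c.tape i) (c.head i) ((f fun i => c.tape i (c.head i)).2 i).1,
        fun i => c.head i + ((f fun i => c.tape i (c.head i)).2 i).2.disp, c.ch⟩, ?_, ?_⟩
      · unfold TM.step
        rw [hact]
      · exact h2 _ fun b _ => mkRule_ok hP hz b
    | ask yes no =>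
      rw [hact] at hr
      simp only [List.mem_singleton] at hr
      subst hr
      obtain rfl := hq (by simp)
      right
      refine ⟨⟨no, c.tape, c.head, c.ch⟩, ?_, ?_⟩
      · unfold TM.step
        rw [hact]
        simp
      · refine h2 _ fun b _ => ?_
        rw [entOK_iff]
        cases b with
        | label p =>
          simp only [List.mem_singleton, Atom.label.injEq, chi, decide_eq_true_eq,
            decide_eq_false_iff_not]
          refine ⟨fun h => h, fun h => h, fun h _ => h, fun _ h => h, fun h1 h2 => ?_⟩
          simp [h1, h2]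
        | head i n => simp [chi]
        | cell i n s => simp [chi]
    | choose q₀ q₁ =>
      rw [hact] at hr
      cases hr
    | halt b =>
      cases b with
      | false =>
        rw [hact] at hr
        cases hr
      | true =>
        rw [hact] at hr
        simp only [List.mem_singleton] at hr
        subst hr
        obtain rfl := hq (by simp)
        exact Or.inl hact
  · exfalso
    unfold cleaners at hr
    obtain ⟨b, -, rfl⟩ := List.mem_map.1 hr
    have := h1 _ (label_mem none) (by simp)
    simp [chi] at this

/-! ### Reachability -/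

open Classical in
/-- the state in which only the bit of the erasing state is `true` -/
noncomputable def goal (M : TM) (N : ℕ) : List Bool :=
  svec (atoms M N) fun b => decide (b = .label none)

open Classical in
/-- all bits can be erased -/
theorem clean_reach (N : ℕ) (S : Atom M → Bool) (hS : S (.label none) = true) :
    ∀ l : List (Atom M), (∀ b ∈ l, b ∈ atoms M N) →
      Relation.ReflTransGen (PStep ((rules M N).map (rvec (atoms M N)))) (svec (atoms M N) S)
        (svec (atoms M N) fun b => if b ∈ l ∧ b ≠ .label none then false else S b) := by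
  intro l
  induction l with
  | nil =>
    intro _
    simp only [List.not_mem_nil, false_and, if_false]
    exact Relation.ReflTransGen.refl
  | cons a l ih =>
    intro hl
    have h1 := ih fun b hb => hl b (List.mem_cons_of_mem _ hb)
    set T : Atom M → Bool := fun b => if b ∈ l ∧ b ≠ .label none then false else S b with hT
    by_cases ha : T a = true ∧ a ≠ .label none
    · refine h1.tail ?_
      refine pstep_intro (r := ([.label none, a], [.label none])) ?_ (fun b _ => ?_)
      · unfold rules cleaners
        rw [List.mem_append]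
        refine Or.inr (List.mem_map.2 ⟨a, hl a List.mem_cons_self, rfl⟩)
      · rw [entOK_iff]
        have hTn : T (.label none) = true := by simp [hT, hS]
        simp only [List.mem_cons, List.not_mem_nil, or_false]
        by_cases hb : b = .label none
        · subst hb
          simp [hTn, hS]
        · by_cases hba : b = a
          · subst hba
            simp [hb, ha.1]
          · have h3 : (if (b = a ∨ b ∈ l) ∧ b ≠ .label none then false else S b) = T b := by
              simp [hT, hba]
            rw [h3]
            simp [hb, hba]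
    · convert h1 using 2
      funext b
      by_cases hba : b = a
      · subst hba
        by_cases hb : b = .label none
        · subst hb
          simp [hT]
        · have h3 : T b = false := by
            by_contra h
            exact ha ⟨by simpa using h, hb⟩
          rw [h3]
          simp [hb]
      · simp [hT, hba]

theorem accept_reach {P : ℕ} {c : Cfg M} (hact : M.act c.q = .halt true) :
    Relation.ReflTransGen (PStep ((rules M (2 * P + 3)).map (rvec (atoms M (2 * P + 3)))))
      (svec (atoms M (2 * P + 3)) (chi P c)) (goal M (2 * P + 3)) := by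
  classical
  let S : Atom M → Bool := fun b => if b = .label none then true else
    if b = .label (some c.q) then false else chi P c b
  have h1 : PStep ((rules M (2 * P + 3)).map (rvec (atoms M (2 * P + 3))))
      (svec (atoms M (2 * P + 3)) (chi P c)) (svec (atoms M (2 * P + 3)) S) := by
    refine pstep_intro (r := ([.label (some c.q)], [.label none])) ?_ (fun b _ => ?_)
    · unfold rules
      rw [List.mem_append, List.mem_flatMap]
      refine Or.inl ⟨c.q, mem_allOf _, ?_⟩
      unfold rulesOf
      rw [hact]
      simp
    · rw [entOK_iff]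
      simp only [List.mem_singleton, S]
      by_cases hb : b = .label none
      · subst hb
        simp [chi]
      · by_cases hb2 : b = .label (some c.q)
        · subst hb2
          simp [chi]
        · simp [hb, hb2]
  have h2 := clean_reach (2 * P + 3) S (by simp [S]) (atoms M (2 * P + 3)) (fun b hb => hb)
  refine (Relation.ReflTransGen.single h1).trans ?_
  have h3 : goal M (2 * P + 3) = svec (atoms M (2 * P + 3)) fun b =>
      if b ∈ atoms M (2 * P + 3) ∧ b ≠ .label none then false else S b := by
    unfold goal svec
    apply List.map_congr_left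
    intro b hb
    by_cases hb' : b = .label none
    · subst hb'
      simp [S]
    · simp [hb, hb']
  rw [h3]
  exact h2

theorem run_succ {A : Set (List Bool)} {x : List Bool} {β : ℕ → Bool} (n : ℕ) :
    M.run A x β (n + 1) = (M.run A x β n).bind (M.step A) := by
  unfold TM.run
  rw [iterate_succ_apply']

/-- The machine accepts if and only if the goal can be reached. -/
theorem reach_iff {L : Set (List Bool)} {x : List Bool} {P : ℕ} (hdet : M.Det)
    (hP : ∀ β n c, M.run ∅ x β n = some c → ∀ i, |c.head i| ≤ (P : ℤ)) (hL : M.lang ∅ = L) :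
    x ∈ L ↔ Relation.ReflTransGen (PStep ((rules M (2 * P + 3)).map
      (rvec (atoms M (2 * P + 3))))) (svec (atoms M (2 * P + 3))
        (chi P (M.init x fun _ => false))) (goal M (2 * P + 3)) := by
  constructor
  · intro hx
    rw [← hL] at hx
    obtain ⟨β, t, c, n, -, hrun0, hact⟩ := hx
    obtain ⟨c₀, hrun, hq, -, -⟩ := det_run hdet β (fun _ => false) n c hrun0
    rw [← hq] at hact
    refine Relation.ReflTransGen.trans ?_ (accept_reach hact)
    clear hact hq hrun0
    induction n generalizing c₀ with
    | zero =>
      simp only [TM.run, iterate_zero, id, Option.some.injEq] at hrun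
      subst hrun
      exact Relation.ReflTransGen.refl
    | succ n ih =>
      rw [run_succ] at hrun
      cases hn : M.run ∅ x (fun _ => false) n with
      | none =>
        rw [hn] at hrun
        cases hrun
      | some c₁ =>
        rw [hn] at hrun
        exact (ih c₁ hn).tail (pstep_of_step hdet (hP _ _ _ hn) hrun)
  · intro h
    have key : ∀ s, Relation.ReflTransGen (PStep ((rules M (2 * P + 3)).map
        (rvec (atoms M (2 * P + 3))))) (svec (atoms M (2 * P + 3))
        (chi P (M.init x fun _ => false))) s → x ∈ L ∨ ∃ n c,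
        M.run ∅ x (fun _ => false) n = some c ∧ s = svec (atoms M (2 * P + 3)) (chi P c) := by
      intro s hs
      induction hs with
      | refl => exact Or.inr ⟨0, _, rfl, rfl⟩
      | tail _ hstep ih =>
        rcases ih with ih | ⟨n, c, hrun, rfl⟩
        · exact Or.inl ih
        · rcases step_of_pstep (hP _ _ _ hrun) hstep with hact | ⟨c', hc', rfl⟩
          · left
            rw [← hL]
            exact ⟨_, n, c, n, le_rfl, hrun, hact⟩
          · right
            refine ⟨n + 1, c', ?_, rfl⟩
            rw [run_succ, hrun]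
            exact hc'
    rcases key _ h with h | ⟨n, c, -, hc⟩
    · exact h
    · exfalso
      unfold goal svec at hc
      have h1 := List.map_inj_left.1 hc (.label none) (label_mem none)
      simp [chi] at h1

/-! ### Computing the instance in polynomial time -/

variable {𝒜 : Set Orc} {α β γ δ : Type} [Enc α] [Enc β] [Enc γ]

theorem flatMapConst (D : List δ) {f : Orc → α → δ → List β}
    (h : ∀ d, PTf 𝒜 (fun A x => f A x d)) : PTf 𝒜 (fun A x => D.flatMap (f A x)) := by
  induction D with
  | nil => exact PTf.const []
  | cons d D ih =>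
    simp only [List.flatMap_cons]
    exact (h d).append ih

theorem listOfFn {n : ℕ} {f : Orc → α → Fin n → β} (h : ∀ i, PTf 𝒜 (fun A x => f A x i)) :
    PTf 𝒜 (fun A x => List.ofFn (f A x)) :=
  (PTf.finFun h).retype (fun x => x) (fun _ => rfl) (fun _ _ _ => rfl)

/-- the code of a bit -/
def Atom.code : Atom M → Option (Option M.Q) × ℕ × ℕ × Option Sym
  | .label p => (some p, 0, 0, none)
  | .head i n => (none, i, n, none)
  | .cell i n s => (none, i, n, some s)

theorem Atom.code_injective : Injective (Atom.code (M := M)) := by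
  intro a b h
  cases a with
  | label p => cases b <;> simp_all [Atom.code]
  | head i n =>
    cases b with
    | head j m =>
      simp only [Atom.code, Prod.mk.injEq, true_and, and_true] at h
      rw [Fin.ext h.1, h.2]
    | label _ => simp [Atom.code] at h
    | cell _ _ _ => simp [Atom.code] at h
  | cell i n s =>
    cases b with
    | cell j m t =>
      simp only [Atom.code, Prod.mk.injEq, true_and, Option.some.injEq] at h
      rw [Fin.ext h.1, h.2.1, h.2.2]
    | label _ => simp [Atom.code] at h
    | head _ _ => simp [Atom.code] at h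

noncomputable instance : Enc (Atom M) :=
  ⟨fun a => e a.code, fun _ _ h => Atom.code_injective (Enc.inj h)⟩

theorem ptf_head (i : Fin (M.K + 2)) {n : Orc → α → ℕ} (hn : PTf 𝒜 n) :
    PTf 𝒜 (fun A x => (Atom.head i (n A x) : Atom M)) := by
  have h : PTf 𝒜 (fun A x => ((none, (i : ℕ), n A x, none) :
      Option (Option M.Q) × ℕ × ℕ × Option Sym)) :=
    (PTf.const none).pair ((PTf.const (i : ℕ)).pair (hn.pair (PTf.const none)))
  exact h.retype (fun x => x) (fun _ => rfl) (fun _ _ _ => rfl)

theorem ptf_cell (i : Fin (M.K + 2)) (s : Sym) {n : Orc → α → ℕ} (hn : PTf 𝒜 n) :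
    PTf 𝒜 (fun A x => (Atom.cell i (n A x) s : Atom M)) := by
  have h : PTf 𝒜 (fun A x => ((none, (i : ℕ), n A x, some s) :
      Option (Option M.Q) × ℕ × ℕ × Option Sym)) :=
    (PTf.const none).pair ((PTf.const (i : ℕ)).pair (hn.pair (PTf.const (some s))))
  exact h.retype (fun x => x) (fun _ => rfl) (fun _ _ _ => rfl)

theorem ptf_heads {N : Orc → α → ℕ} (hN : PTf 𝒜 N) :
    PTf 𝒜 (fun A x => heads M (N A x)) := by
  unfold heads
  refine flatMapConst _ fun i => ?_
  exact hN.range.map (g := fun _ _ n => Atom.head i n) (ptf_head i PTf.id.snd)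

theorem ptf_cells {N : Orc → α → ℕ} (hN : PTf 𝒜 N) :
    PTf 𝒜 (fun A x => cells M (N A x)) := by
  unfold cells
  refine flatMapConst _ fun i => flatMapConst _ fun s => ?_
  exact hN.range.map (g := fun _ _ n => Atom.cell i n s) (ptf_cell i s PTf.id.snd)

theorem ptf_atoms {N : Orc → α → ℕ} (hN : PTf 𝒜 N) :
    PTf 𝒜 (fun A x => atoms M (N A x)) := by
  unfold atoms
  exact (PTf.const _).append ((ptf_heads hN).append (ptf_cells hN))

theorem ptf_tup (k : ℕ) {N : Orc → α → ℕ} (hN : PTf 𝒜 N) :
    PTf 𝒜 (fun A x => tup k (N A x)) := by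
  induction k with
  | zero => exact PTf.const _
  | succ k ih =>
    unfold tup
    refine hN.range.flatMap (g := fun A x z => (tup k (N A x)).map fun l => z :: l) ?_
    have h1 : PTf 𝒜 (fun A (p : α × ℕ) => tup k (N A p.1)) := ih.comp PTf.id.fst
    exact h1.map (g := fun _ (p : α × ℕ) l => p.2 :: l) (PTf.id.fst.snd.cons PTf.id.snd)

theorem ptf_shift (d : Dir) {n : Orc → α → ℕ} (hn : PTf 𝒜 n) :
    PTf 𝒜 (fun A x => shift d (n A x)) := by
  cases d with
  | left => exact hn.pred
  | stay => exact hn
  | right => exact hn.succ

theorem ptf_mkRule (q : M.Q) (a : Fin (M.K + 2) → Sym)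
    (g : M.Q × (Fin (M.K + 2) → Sym × Dir)) {zs : Orc → α → List ℕ} (hz : PTf 𝒜 zs) :
    PTf 𝒜 (fun A x => mkRule q a g (zs A x)) := by
  unfold mkRule
  have h : ∀ i : Fin (M.K + 2), PTf 𝒜 (fun A x => (zs A x).getD i 0) := fun i =>
    hz.listGetD (PTf.const (i : ℕ)) (PTf.const 0)
  refine PTf.pair ?_ ?_
  · exact (PTf.const _).cons ((listOfFn fun i => ptf_head i (h i)).append
      (listOfFn fun i => ptf_cell i _ (h i)))
  · exact (PTf.const _).cons ((listOfFn fun i => ptf_head i (ptf_shift _ (h i))).append
      (listOfFn fun i => ptf_cell i _ (h i)))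

theorem ptf_rulesOf (q : M.Q) {N : Orc → α → ℕ} (hN : PTf 𝒜 N) :
    PTf 𝒜 (fun A x => rulesOf M (N A x) q) := by
  unfold rulesOf
  cases M.act q with
  | move f =>
    refine flatMapConst _ fun a => ?_
    exact (ptf_tup _ hN).map (g := fun _ _ zs => mkRule q a (f a) zs)
      (ptf_mkRule q a (f a) PTf.id.snd)
  | ask yes no => exact PTf.const _
  | choose _ _ => exact PTf.const _
  | halt b =>
    cases b with
    | false => exact PTf.const _
    | true => exact PTf.const _

theorem ptf_rules {N : Orc → α → ℕ} (hN : PTf 𝒜 N) :
    PTf 𝒜 (fun A x => rules M (N A x)) := by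
  unfold rules cleaners
  refine (flatMapConst _ fun q => ptf_rulesOf q hN).append ?_
  refine (ptf_atoms hN).map (g := fun _ _ b => (([.label none, b], [.label none]) :
    List (Atom M) × List (Atom M))) ?_
  exact ((PTf.const _).cons (PTf.id.snd.cons (PTf.const []))).pair (PTf.const _)

theorem ptf_mem {l : Orc → α → List β} {b : Orc → α → β} [∀ A x, Decidable (b A x ∈ l A x)]
    (hl : PTf 𝒜 l) (hb : PTf 𝒜 b) : PTf 𝒜 (fun A x => decide (b A x ∈ l A x)) := by
  classical
  have h := hl.any (p := fun A x y => decide (b A x = y))
    (PTf.decide_eq (hb.comp PTf.id.fst) PTf.id.snd)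
  refine h.congr fun A _ x => ?_
  rw [Bool.eq_iff_iff]
  simp

theorem ptf_ent {r : Orc → α → List β × List β} {b : Orc → α → β} (hr : PTf 𝒜 r)
    (hb : PTf 𝒜 b) : PTf 𝒜 (fun A x => ent (r A x) (b A x)) := by
  classical
  unfold ent
  refine PTf.ifP (ptf_mem hr.fst hb) (PTf.ifP (ptf_mem hr.snd hb) (PTf.const _) (PTf.const _))
    (PTf.ifP (ptf_mem hr.snd hb) (PTf.const _) (PTf.const _))

theorem ptf_rvecs {L : Orc → α → List β} {R : Orc → α → List (List β × List β)}
    (hL : PTf 𝒜 L) (hR : PTf 𝒜 R) : PTf 𝒜 (fun A x => (R A x).map (rvec (L A x))) := by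
  refine hR.map (g := fun A x r => rvec (L A x) r) ?_
  unfold rvec
  have h1 : PTf 𝒜 (fun A (p : α × (List β × List β)) => L A p.1) := hL.comp PTf.id.fst
  exact h1.map (g := fun _ (p : α × (List β × List β)) b => ent p.2 b)
    (ptf_ent PTf.id.fst.snd PTf.id.snd)

theorem svec_append {ι : Type} (L L' : List ι) (S : ι → Bool) :
    svec (L ++ L') S = svec L S ++ svec L' S := List.map_append

theorem svec_flatMap {ι : Type} (D : List δ) (f : δ → List ι) (S : ι → Bool) :
    svec (D.flatMap f) S = D.flatMap fun d => svec (f d) S := by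
  unfold svec
  rw [List.map_flatMap]

theorem ptf_wordTape {P n : Orc → α → ℕ} {w : Orc → α → List Bool} (hP : PTf 𝒜 P)
    (hn : PTf 𝒜 n) (hw : PTf 𝒜 w) :
    PTf 𝒜 (fun A x => wordTape (w A x) ((n A x : ℤ) - (P A x + 1))) := by
  have h : PTf 𝒜 (fun A x => if n A x < P A x + 1 then none else
      (w A x)[n A x - (P A x + 1)]?) :=
    PTf.ifP (hn.decide_lt hP.succ) (PTf.const none) (hw.getElem? (hn.sub hP.succ))
  refine h.congr fun A _ x => ?_
  unfold wordTape
  by_cases hlt : n A x < P A x + 1
  · rw [if_pos hlt, if_pos (by omega)]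
  · rw [if_neg hlt, if_neg (by omega)]
    congr 1
    omega

theorem ptf_start {P N : Orc → α → ℕ} {w : Orc → α → List Bool} (hP : PTf 𝒜 P)
    (hN : PTf 𝒜 N) (hw : PTf 𝒜 w) :
    PTf 𝒜 (fun A x => svec (atoms M (N A x)) (chi (P A x) (M.init (w A x) fun _ => false))) := by
  classical
  unfold atoms heads cells
  simp only [svec_append, svec_flatMap]
  refine PTf.append ?_ (PTf.append ?_ ?_)
  · refine (PTf.const ((labels M).map fun b => decide (b = .label (some M.start)))).congr
      fun A _ x => ?_
    unfold svec
    apply List.map_congr_left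
    intro b hb
    unfold labels at hb
    rcases List.mem_cons.1 hb with rfl | hb
    · simp [chi]
    · obtain ⟨q, -, rfl⟩ := List.mem_map.1 hb
      simp [chi, TM.init]
  · refine flatMapConst _ fun i => ?_
    have h := hN.range.map (g := fun A x n => decide (n = P A x + 1))
      (PTf.decide_eq PTf.id.snd ((hP.succ).comp PTf.id.fst))
    refine h.congr fun A _ x => ?_
    unfold svec
    rw [List.map_map]
    apply List.map_congr_left
    intro n _
    simp only [comp_apply, chi, TM.init]
    rw [decide_eq_decide]
    omega
  · refine flatMapConst _ fun i => flatMapConst _ fun s => ?_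
    by_cases hi : i = 0
    · subst hi
      have h := hN.range.map (g := fun A x (n : ℕ) =>
        decide (wordTape (w A x) ((n : ℤ) - (P A x + 1)) = s))
        (PTf.decide_eq (ptf_wordTape (hP.comp PTf.id.fst) PTf.id.snd (hw.comp PTf.id.fst))
          (PTf.const s))
      refine h.congr fun A _ x => ?_
      unfold svec
      rw [List.map_map]
      apply List.map_congr_left
      intro n _
      simp [chi, TM.init]
    · have h := hN.range.map (g := fun _ _ (_ : ℕ) => decide ((none : Sym) = s))
        (PTf.const (decide ((none : Sym) = s)))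
      refine h.congr fun A _ x => ?_
      unfold svec
      rw [List.map_map]
      apply List.map_congr_left
      intro n _
      simp [chi, TM.init, hi]

theorem ptf_goal {N : Orc → α → ℕ} (hN : PTf 𝒜 N) : PTf 𝒜 (fun A x => goal M (N A x)) := by
  classical
  unfold goal svec
  have h : PTf 𝒜 (fun _ (p : α × Atom M) => decide (p.2 = Atom.label none)) :=
    PTf.decide_eq PTf.id.snd (PTf.const _)
  have h' := (ptf_atoms hN).map (g := fun _ _ b => decide (b = Atom.label none)) h
  refine h'.congr fun A _ x => ?_
  apply List.map_congr_left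
  intro b _
  rw [decide_eq_decide]

/-- Every language in `PSPACE` is reduced in polynomial time to plan reachability. -/
theorem pspace_plan {L : Set (List Bool)} (hL : InPSPACE L) :
    ∃ F : List Bool → List (List Ent) × (List Bool × List Bool),
      (∀ 𝒜 : Set Orc, PTf 𝒜 (fun _ x => F x)) ∧
      (∀ x, (∀ r ∈ (F x).1, r.length = (F x).2.1.length) ∧
        (F x).2.2.length = (F x).2.1.length) ∧
      ∀ x, x ∈ L ↔ Relation.ReflTransGen (PStep (F x).1) (F x).2.1 (F x).2.2 := by
  obtain ⟨M, p, hdet, -, hspace, hML⟩ := hL
  refine ⟨fun x => ((rules M (2 * p.eval x.length + 3)).map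
      (rvec (atoms M (2 * p.eval x.length + 3))),
    (svec (atoms M (2 * p.eval x.length + 3))
      (chi (p.eval x.length) (M.init x fun _ => false)), goal M (2 * p.eval x.length + 3))),
    fun 𝒜 => ?_, fun x => ⟨?_, ?_⟩, fun x => ?_⟩
  · have hP : PTf 𝒜 (fun _ (x : List Bool) => p.eval x.length) := PTf.id.length.poly p
    have hN : PTf 𝒜 (fun _ (x : List Bool) => 2 * p.eval x.length + 3) :=
      ((PTf.const 2).mul hP).add (PTf.const 3)
    exact (ptf_rvecs (ptf_atoms hN) (ptf_rules hN)).pair ((ptf_start hP hN PTf.id).pair
      (ptf_goal hN))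
  · intro r hr
    obtain ⟨r', -, rfl⟩ := List.mem_map.1 hr
    simp [rvec, svec]
  · simp [goal, svec]
  · exact reach_iff hdet (fun β n c hc i => hspace x β n c hc i) hML

end Pool.Agent.LibPlan90
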